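import Pool.Agent.J4H92.TP.Stm

/-! Project TP (helper92), piece ZJ (helper98): a placement for one set `J`: the plane placement with
the indicator function of a vertex as heights. -/

set_option autoImplicit false

namespace Pool.Agent.J4H98.TP

open SimpleGraph Module Pool.Agent.H283R2.DR Pool.Agent.J4H92.TP

section
open Matrix

theorem skew2 (A : Matrix (Fin 2) (Fin 2) ℝ) (hA : Aᵀ = -A) (x : Fin 2 → ℝ) (hx : x ≠ 0)
    (h : A *ᵥ x = 0) : A = 0 := by
  have e : ∀ i j, A j i = - A i j := fun i j => by
    have := congrFun (congrFun hA i) j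
    simpa [Matrix.transpose_apply] using this
  have h00 : A 0 0 = 0 := by have := e 0 0; linarith
  have h11 : A 1 1 = 0 := by have := e 1 1; linarith
  have h10 : A 1 0 = - A 0 1 := e 0 1
  have g0 := congrFun h 0
  have g1 := congrFun h 1
  simp only [Matrix.mulVec, dotProduct, Fin.sum_univ_two, Pi.zero_apply, h00, h11, h10, zero_mul,
    zero_add, add_zero] at g0 g1
  have h01 : A 0 1 = 0 := by
    by_contra hne
    apply hx
    have x1 : x 1 = 0 := by
      rcases mul_eq_zero.mp g0 with h' | h'
      · exact absurd h' hne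
      · exact h'
    have x0 : x 0 = 0 := by
      rcases mul_eq_zero.mp g1 with h' | h'
      · exact absurd (neg_eq_zero.mp h') hne
      · exact h'
    funext i
    fin_cases i
    · exact x0
    · exact x1
  ext i j
  fin_cases i <;> fin_cases j
  · exact h00
  · exact h01
  · show A 1 0 = 0
    rw [h10, h01, neg_zero]
  · exact h11

end

/-- a plane placement with heights -/
def up {W : Type} (P : W → Fin 2 → ℝ) (z : W → ℝ) : W → Fin 3 → ℝ := fun v => ![P v 0, P v 1, z v]

/-- the plane part -/
def pl {W : Type} (m : W → Fin 3 → ℝ) : W → Fin 2 → ℝ := fun v => ![m v 0, m v 1]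

theorem up_dot {W : Type} (P : W → Fin 2 → ℝ) (z : W → ℝ) (m : W → Fin 3 → ℝ) (a b : W) :
    (up P z a - up P z b) ⬝ᵥ (m a - m b) =
      (P a - P b) ⬝ᵥ (pl m a - pl m b) + (z a - z b) * (m a 2 - m b 2) := by
  simp [up, pl, dotProduct, Fin.sum_univ_three, Fin.sum_univ_two]

theorem t_ZJ : S_ZJ := by
  intro W _ H J hH hJ hJ2 hE
  classical
  obtain ⟨P, hP⟩ := exists_gen W 2
  have hrig : InfRigid H P := (rigidOn_univ_iff H P).1 ((hP.genRigid_iff H).1 hH)
  -- two vertices outside `J`
  obtain ⟨x, y, hx, hy, hxy⟩ : ∃ x y, x ∉ J ∧ y ∉ J ∧ x ≠ y := by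
    have h1 : 1 < (Jᶜ : Set W).ncard := by
      have := Set.ncard_add_ncard_compl J
      rw [Nat.card_eq_fintype_card] at this
      omega
    obtain ⟨x, hx, y, hy, hxy⟩ := (Set.one_lt_ncard (Set.toFinite _)).1 h1
    exact ⟨x, y, hx, hy, hxy⟩
  have hPxy : P x - P y ≠ 0 := by
    intro h
    have h1 := hP.pos 2 ![x, y] (by norm_num) (by
      intro i j hij
      fin_cases i <;> fin_cases j <;> simp_all)
    have h2 := h1.injective.ne (show (0 : Fin 2) ≠ 1 by decide)
    apply h2
    simpa using sub_eq_zero.mp h
  by_contra hcon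
  push Not at hcon
  -- the heights of the motions
  have inj : ∀ z : W → ℝ, ∀ m ∈ Zs H (up P z) J, (∀ v, m v 2 = 0) → m = 0 := by
    intro z m hm h0
    have hq : IsMotion H P (pl m) := by
      intro u v huv
      have := hm.1 u v huv
      rw [up_dot, h0 u, h0 v, sub_zero, mul_zero, add_zero] at this
      exact this
    obtain ⟨A, b, hA, hAb⟩ := hrig (pl m) hq
    have zx : pl m x = 0 := by
      funext i
      fin_cases i <;> simp [pl, hm.2 x hx]
    have zy : pl m y = 0 := by
      funext i
      fin_cases i <;> simp [pl, hm.2 y hy]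
    have hA0 : A = 0 := by
      refine skew2 A hA (P x - P y) hPxy ?_
      have h1 := hAb x
      have h2 := hAb y
      rw [zx] at h1
      rw [zy] at h2
      rw [Matrix.mulVec_sub]
      have : A.mulVec (P x) = A.mulVec (P y) := by
        have h3 : A.mulVec (P x) + b = A.mulVec (P y) + b := h1.symm.trans h2
        exact add_right_cancel h3
      rw [this, sub_self]
    have hb : b = 0 := by
      have h1 := hAb x
      rw [zx, hA0, Matrix.zero_mulVec, zero_add] at h1
      exact h1.symm
    funext v i
    have h1 := hAb v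
    rw [hA0, hb, Matrix.zero_mulVec, zero_add] at h1
    have e0 := congrFun h1 0
    have e1 := congrFun h1 1
    fin_cases i
    · simpa [pl] using e0
    · simpa [pl] using e1
    · exact h0 v
  -- every function on `J` is the height of a motion
  have sur : ∀ (z w : W → ℝ), (∀ v, v ∉ J → w v = 0) →
      ∃ m ∈ Zs H (up P z) J, ∀ v, m v 2 = w v := by
    intro z w hw
    let φ : Zs H (up P z) J →ₗ[ℝ] (J → ℝ) :=
      { toFun := fun m j => m.1 j.1 2
        map_add' := fun m m' => by funext j; simp
        map_smul' := fun c m => by funext j; simp }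
    have hinj : Function.Injective φ := by
      rw [← LinearMap.ker_eq_bot, LinearMap.ker_eq_bot']
      intro m hm
      apply Subtype.ext
      refine inj z m.1 m.2 ?_
      intro v
      by_cases hv : v ∈ J
      · exact congrFun hm ⟨v, hv⟩
      · have := m.2.2 v hv
        rw [this]
        rfl
    have hfr : finrank ℝ (J → ℝ) = J.ncard := by
      rw [finrank_fintype_fun_eq_card, ← Nat.card_eq_fintype_card, Nat.card_coe_set_eq]
    have hle : finrank ℝ (Zs H (up P z) J) ≤ finrank ℝ (J → ℝ) :=
      LinearMap.finrank_le_finrank_of_injective hinj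
    have hge : finrank ℝ (J → ℝ) ≤ finrank ℝ (Zs H (up P z) J) := by
      rw [hfr]
      have := hcon (up P z)
      omega
    have hsur : Function.Surjective φ :=
      (LinearMap.injective_iff_surjective_of_finrank_eq_finrank (le_antisymm hle hge)).1 hinj
    obtain ⟨m, hm⟩ := hsur (fun j => w j.1)
    refine ⟨m.1, m.2, fun v => ?_⟩
    by_cases hv : v ∈ J
    · exact congrFun hm ⟨v, hv⟩
    · rw [m.2.2 v hv, hw v hv]
      rfl
  -- the plane pinned matrix
  let E : Set (Sym2 W) := {e ∈ H.edgeSet | ∃ x ∈ J, x ∈ e}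
  let ext : (J → Fin 2 → ℝ) → W → Fin 2 → ℝ := fun u v => if h : v ∈ J then u ⟨v, h⟩ else 0
  have ext_add : ∀ u u', ext (u + u') = ext u + ext u' := by
    intro u u'
    funext v
    by_cases h : v ∈ J <;> simp [ext, h]
  have ext_smul : ∀ (c : ℝ) u, ext (c • u) = c • ext u := by
    intro c u
    funext v
    by_cases h : v ∈ J <;> simp [ext, h]
  let M : (J → Fin 2 → ℝ) →ₗ[ℝ] (E → ℝ) :=
    { toFun := fun u e => (P (e.1.out.1) - P (e.1.out.2)) ⬝ᵥ
        (ext u (e.1.out.1) - ext u (e.1.out.2))
      map_add' := fun u u' => by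
        funext e
        rw [ext_add]
        simp only [Pi.add_apply]
        rw [← dotProduct_add]
        congr 1
        abel
      map_smul' := fun c u => by
        funext e
        rw [ext_smul]
        simp only [Pi.smul_apply, RingHom.id_apply]
        rw [← smul_sub, dotProduct_smul] }
  have key : ∀ e : E, ∃ u, M u = Pi.single e 1 := by
    rintro ⟨e, he, j, hj, hje⟩
    obtain ⟨k, hk⟩ := Sym2.mem_iff_exists.mp hje
    have hjk : j ≠ k := by
      rintro rfl
      rw [hk] at he
      exact H.loopless.irrefl j he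
    obtain ⟨m, hm, hm2⟩ := sur (Pi.single k 1) (Pi.single j 1) (by
      intro v hv
      rw [Pi.single_apply, if_neg]
      rintro rfl
      exact hv hj)
    refine ⟨fun v => pl m v.1, ?_⟩
    have hext : ext (fun v => pl m v.1) = pl m := by
      funext v
      by_cases h : v ∈ J
      · simp [ext, h]
      · simp only [ext, h, dif_neg, not_false_eq_true]
        funext i
        fin_cases i <;> simp [pl, hm.2 v h]
    funext f
    show (P (f.1.out.1) - P (f.1.out.2)) ⬝ᵥ
        (ext (fun v => pl m v.1) (f.1.out.1) - ext (fun v => pl m v.1) (f.1.out.2)) = _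
    rw [hext]
    have hf : s(f.1.out.1, f.1.out.2) = f.1 := Quot.out_eq f.1
    have hadj : H.Adj f.1.out.1 f.1.out.2 := by
      have := f.2.1
      rw [← hf] at this
      exact this
    generalize f.1.out.1 = a at hf hadj ⊢
    generalize f.1.out.2 = b at hf hadj ⊢
    have h1 := hm.1 a b hadj
    rw [up_dot, hm2 a, hm2 b] at h1
    have h2 : (P a - P b) ⬝ᵥ (pl m a - pl m b) =
        - (((Pi.single k 1 : W → ℝ) a - (Pi.single k 1 : W → ℝ) b) *
          ((Pi.single j 1 : W → ℝ) a - (Pi.single j 1 : W → ℝ) b)) := by linarith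
    rw [h2]
    by_cases hfe : f = ⟨e, he, j, hj, hje⟩
    · have hfe' : s(a, b) = s(j, k) := by
        rw [hf, hfe]
        exact hk
      rw [hfe, Pi.single_eq_same]
      rcases Sym2.eq_iff.mp hfe' with ⟨rfl, rfl⟩ | ⟨rfl, rfl⟩
      · simp [hjk, hjk.symm]
      · simp [hjk, hjk.symm]
    · rw [Pi.single_eq_of_ne hfe]
      have hfe' : s(a, b) ≠ s(j, k) := by
        intro h
        apply hfe
        apply Subtype.ext
        rw [← hf, h]
        exact hk.symm
      have hab : a ≠ b := hadj.ne
      by_cases ha : a = k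
      · subst ha
        have hb : b ≠ j := by
          rintro rfl
          exact hfe' Sym2.eq_swap
        have : (Pi.single j 1 : W → ℝ) a - (Pi.single j 1 : W → ℝ) b = 0 := by
          rw [Pi.single_eq_of_ne hjk.symm, Pi.single_eq_of_ne hb, sub_zero]
        rw [this, mul_zero, neg_zero]
      · by_cases hb : b = k
        · subst hb
          have haj : a ≠ j := by
            rintro rfl
            exact hfe' rfl
          have : (Pi.single j 1 : W → ℝ) a - (Pi.single j 1 : W → ℝ) b = 0 := by
            rw [Pi.single_eq_of_ne haj, Pi.single_eq_of_ne hjk.symm, sub_zero]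
          rw [this, mul_zero, neg_zero]
        · rw [Pi.single_eq_of_ne ha, Pi.single_eq_of_ne hb, sub_zero, zero_mul, neg_zero]
  have hMs : Function.Surjective M := by
    intro g
    choose u hu using key
    refine ⟨∑ e, g e • u e, ?_⟩
    rw [map_sum]
    have : ∀ e, M (g e • u e) = Pi.single e (g e) := by
      intro e
      rw [map_smul, hu e, ← Pi.single_smul, smul_eq_mul, mul_one]
    simp only [this]
    exact Finset.univ_sum_single g
  have h1 := LinearMap.finrank_le_finrank_of_surjective hMs
  have h2 : finrank ℝ (E → ℝ) = E.ncard := by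
    rw [finrank_fintype_fun_eq_card, ← Nat.card_eq_fintype_card, Nat.card_coe_set_eq]
  have h3 : finrank ℝ (J → Fin 2 → ℝ) = 2 * J.ncard := by
    rw [Module.finrank_pi_fintype]
    simp only [finrank_fintype_fun_eq_card, Fintype.card_fin, Finset.sum_const, Finset.card_univ,
      smul_eq_mul]
    rw [← Nat.card_eq_fintype_card, Nat.card_coe_set_eq, mul_comm]
  rw [h2, h3] at h1
  have : 2 * J.ncard + 1 ≤ E.ncard := hE
  omega

end Pool.Agent.J4H98.TP
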